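import Pool.Agent.W770.KP.Stm

set_option autoImplicit false

open scoped Classical

namespace Pool.Agent.W143.KP

open Pool.Agent.W770.KP MvPolynomial

section

variable {F A : Type} [Field F] [CommRing A] [Algebra F A] {n : ℕ}

/-- Taylor shift with values in an algebra. -/
noncomputable def T (w : Fin n → A) : MvPolynomial (Fin n) F →ₐ[F] MvPolynomial (Fin n) A :=
  aeval fun i => X i + C (w i)

/-- coefficients of the shifted monomials -/
noncomputable def cf (w : Fin n → A) (α β : Fin n →₀ ℕ) : A :=
  ∏ i, (((β i).choose (α i) : ℕ) : A) * w i ^ (β i - α i)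

lemma coeff_prod_pow (w : Fin n → A) (α β : Fin n →₀ ℕ) :
    (∏ i, (X i + C (w i) : MvPolynomial (Fin n) A) ^ β i).coeff α = cf w α β := by
  have h1 : ∀ i, (X i + C (w i) : MvPolynomial (Fin n) A) ^ β i =
      ∑ k ∈ Finset.range (β i + 1),
        monomial (Finsupp.single i k) ((((β i).choose k : ℕ) : A) * w i ^ (β i - k)) := by
    intro i
    rw [add_pow]
    refine Finset.sum_congr rfl fun k _ => ?_
    rw [← C_mul_X_pow_eq_monomial, C_mul, C_pow]
    simp only [map_natCast]
    ring
  rw [Finset.prod_congr rfl fun i _ => h1 i, Finset.prod_univ_sum, coeff_sum]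
  have h2 : ∀ p : Fin n → ℕ, (∏ i, (monomial (Finsupp.single i (p i))
      ((((β i).choose (p i) : ℕ) : A) * w i ^ (β i - p i)) : MvPolynomial (Fin n) A)) =
      monomial (Finsupp.equivFunOnFinite.symm p)
        (∏ i, (((β i).choose (p i) : ℕ) : A) * w i ^ (β i - p i)) := by
    intro p
    have h5 : ∀ i, (monomial (Finsupp.single i (p i))
      ((((β i).choose (p i) : ℕ) : A) * w i ^ (β i - p i)) : MvPolynomial (Fin n) A) =
        C ((((β i).choose (p i) : ℕ) : A) * w i ^ (β i - p i)) * X i ^ p i := fun i => by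
      rw [C_mul_X_pow_eq_monomial]
    rw [Finset.prod_congr rfl fun i _ => h5 i, Finset.prod_mul_distrib, monomial_eq,
      ← map_prod, Finsupp.prod_fintype _ _ (fun i => pow_zero _)]
    rfl
  have h3 : ∀ p : Fin n → ℕ, coeff α (∏ i, (monomial (Finsupp.single i (p i))
      ((((β i).choose (p i) : ℕ) : A) * w i ^ (β i - p i)) : MvPolynomial (Fin n) A)) =
      if p = α then cf w α β else 0 := by
    intro p
    rw [h2, coeff_monomial]
    by_cases h : p = α
    · subst h
      rw [if_pos (by ext; rfl), if_pos rfl]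
      rfl
    · rw [if_neg h, if_neg]
      intro h'
      apply h
      rw [← h']
      rfl
  rw [Finset.sum_congr rfl fun p _ => h3 p, Finset.sum_ite_eq']
  split_ifs with h
  · rfl
  · have h4 : ∃ i, β i < α i := by
      by_contra hcon
      push Not at hcon
      exact h (Fintype.mem_piFinset.2 fun i => Finset.mem_range.2 (Nat.lt_succ_of_le (hcon i)))
    obtain ⟨i, hi⟩ := h4
    unfold cf
    rw [Finset.prod_eq_zero (Finset.mem_univ i)]
    rw [Nat.choose_eq_zero_of_lt hi]
    simp

lemma coeff_T (w : Fin n → A) (P : MvPolynomial (Fin n) F) (α : Fin n →₀ ℕ)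
    (s : Finset (Fin n →₀ ℕ)) (hs : P.support ⊆ s) :
    (T w P).coeff α = ∑ β ∈ s, algebraMap F A (P.coeff β) * cf w α β := by
  unfold T
  rw [aeval_def, eval₂_eq', coeff_sum]
  rw [Finset.sum_subset hs]
  · refine Finset.sum_congr rfl fun β _ => ?_
    rw [← coeff_prod_pow w α β]
    rw [MvPolynomial.algebraMap_apply, coeff_C_mul]
  · intro β _ hβ
    rw [notMem_support_iff.1 hβ]
    simp

lemma T_shift (w : Fin n → A) (x : Fin n → F) (P : MvPolynomial (Fin n) F) :
    T w (shift x P) = T (fun i => algebraMap F A (x i) + w i) P := by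
  unfold T shift
  rw [← AlgHom.comp_apply]
  congr 1
  apply algHom_ext
  intro i
  simp only [AlgHom.comp_apply, bind₁_X_right, map_add, aeval_X, algHom_C,
    MvPolynomial.algebraMap_apply]
  ring

lemma shift_eq (x : Fin n → F) (P : MvPolynomial (Fin n) F) : shift x P = T x P := rfl

lemma cf_zero (w : Fin n → A) (α β : Fin n →₀ ℕ) (h : ¬ α ≤ β) : cf w α β = 0 := by
  have h4 : ∃ i, β i < α i := by
    by_contra hcon
    push Not at hcon
    exact h hcon
  obtain ⟨i, hi⟩ := h4
  unfold cf
  rw [Finset.prod_eq_zero (Finset.mem_univ i)]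
  rw [Nat.choose_eq_zero_of_lt hi]
  simp

lemma sum_sub (α β : Fin n →₀ ℕ) (h : α ≤ β) :
    ∑ i, (β i - α i) = β.degree - α.degree := by
  rw [Finsupp.degree_eq_sum, Finsupp.degree_eq_sum]
  have h1 : ∑ i, (β i - α i) + ∑ i, α i = ∑ i, β i := by
    rw [← Finset.sum_add_distrib]
    exact Finset.sum_congr rfl fun i _ => Nat.sub_add_cancel (h i)
  omega

lemma deg_mono (α β : Fin n →₀ ℕ) (h : α ≤ β) : α.degree ≤ β.degree := by
  rw [Finsupp.degree_eq_sum, Finsupp.degree_eq_sum]
  exact Finset.sum_le_sum fun i _ => h i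

lemma cf_mul (s : A) (u : Fin n → A) (α β : Fin n →₀ ℕ) (h : α ≤ β) :
    cf (fun i => s * u i) α β = s ^ (β.degree - α.degree) * cf u α β := by
  unfold cf
  rw [← sum_sub α β h, ← Finset.prod_pow_eq_pow_sum, ← Finset.prod_mul_distrib]
  refine Finset.prod_congr rfl fun i _ => ?_
  rw [mul_pow]
  ring

end

section

open Polynomial

variable {F : Type} [Field F] {n : ℕ}

lemma prod_top {ι : Type} (s : Finset ι) (f : ι → F[X]) (m : ι → ℕ)
    (h : ∀ i ∈ s, (f i).natDegree ≤ m i) :
    (∏ i ∈ s, f i).natDegree ≤ ∑ i ∈ s, m i ∧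
      (∏ i ∈ s, f i).coeff (∑ i ∈ s, m i) = ∏ i ∈ s, (f i).coeff (m i) := by
  classical
  induction s using Finset.induction_on with
  | empty => simp
  | insert a s ha ih =>
    obtain ⟨h1, h2⟩ := ih fun i hi => h i (Finset.mem_insert_of_mem hi)
    have h3 := h a (Finset.mem_insert_self a s)
    rw [Finset.prod_insert ha, Finset.sum_insert ha, Finset.prod_insert ha]
    refine ⟨natDegree_mul_le.trans (add_le_add h3 h1), ?_⟩
    rw [Polynomial.coeff_mul_add_eq_of_natDegree_le h3 h1, h2]

/-- the line -/
noncomputable def zz (b v : Fin n → F) (i : Fin n) : F[X] :=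
  Polynomial.C (b i) + Polynomial.X * Polynomial.C (v i)

lemma cf_top (b v : Fin n → F) (α β : Fin n →₀ ℕ) (h : α ≤ β) :
    (cf (zz b v) α β).natDegree ≤ β.degree - α.degree ∧
      (cf (zz b v) α β).coeff (β.degree - α.degree) = cf v α β := by
  have h0 : ∀ i, (zz b v i).natDegree ≤ 1 := by
    intro i
    unfold zz
    compute_degree
  have h1 : ∀ i ∈ (Finset.univ : Finset (Fin n)),
      ((((β i).choose (α i) : ℕ) : F[X]) * zz b v i ^ (β i - α i)).natDegree ≤ β i - α i := by
    intro i _
    refine natDegree_mul_le.trans ?_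
    rw [natDegree_natCast, zero_add]
    refine natDegree_pow_le.trans ?_
    calc (β i - α i) * (zz b v i).natDegree ≤ (β i - α i) * 1 := Nat.mul_le_mul_left _ (h0 i)
      _ = _ := mul_one _
  have h2 := prod_top Finset.univ _ _ h1
  rw [sum_sub α β h] at h2
  refine ⟨h2.1, h2.2.trans ?_⟩
  unfold cf
  refine Finset.prod_congr rfl fun i _ => ?_
  have h3 : ((((β i).choose (α i) : ℕ) : F[X]) * zz b v i ^ (β i - α i)).coeff (β i - α i) =
      (((β i).choose (α i) : ℕ) : F) * (zz b v i ^ (β i - α i)).coeff (β i - α i) := by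
    rw [← Polynomial.C_eq_natCast, Polynomial.coeff_C_mul]
  rw [h3]
  congr 1
  have h4 := coeff_pow_of_natDegree_le (m := β i - α i) (h0 i)
  rw [mul_one] at h4
  rw [h4]
  congr 1
  unfold zz
  rw [Polynomial.coeff_add, Polynomial.coeff_C, Polynomial.coeff_X_mul]
  simp

lemma zz_eq (b v : Fin n → F) (t : F) : zz b v = fun i =>
    algebraMap F F[X] ((b + t • v) i) +
      (Polynomial.X - Polynomial.C t) * Polynomial.C (v i) := by
  funext i
  have h1 : algebraMap F F[X] ((b + t • v) i) =
      Polynomial.C (b i) + Polynomial.C t * Polynomial.C (v i) := by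
    rw [← Polynomial.C_mul, ← Polynomial.C_add]
    rfl
  rw [h1]
  unfold zz
  ring

lemma T_line (b v : Fin n → F) (t : F) (P : MvPolynomial (Fin n) F) :
    T (zz b v) P = T (A := F[X]) (fun i => (Polynomial.X - Polynomial.C t) * Polynomial.C (v i))
      (shift (b + t • v) P) := by
  rw [T_shift, ← zz_eq]

end

theorem ll : S_LL := by
  intro F _ _ n P e hP g b v hv hg hsum α hα
  have hq : 2 ≤ Fintype.card F := Fintype.one_lt_card
  have hj : α.degree ≤ e := by nlinarith
  set R : Polynomial F := (T (A := Polynomial F) (zz b v) P).coeff α with hR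
  have hR1 : R = ∑ β ∈ P.support, Polynomial.C (P.coeff β) * cf (zz b v) α β :=
    coeff_T _ P α _ subset_rfl
  have hβe : ∀ β ∈ P.support, β.degree ≤ e := by
    intro β hβ
    refine le_trans ?_ hP
    have := le_totalDegree hβ
    rw [Finsupp.sum_fintype _ _ (fun _ => rfl)] at this
    rwa [Finsupp.degree_eq_sum]
  have hdeg : R.natDegree ≤ e - α.degree := by
    rw [hR1]
    refine Polynomial.natDegree_sum_le_of_forall_le _ _ fun β hβ => ?_
    by_cases h : α ≤ β
    · refine (Polynomial.natDegree_C_mul_le _ _).trans ((cf_top b v α β h).1.trans ?_)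
      have := hβe β hβ
      omega
    · rw [cf_zero _ _ _ h]
      simp
  have hdvd : ∀ t : F, (Polynomial.X - Polynomial.C t) ^ (g (b + t • v) - α.degree) ∣ R := by
    intro t
    rw [hR, T_line b v t P, coeff_T _ _ α _ subset_rfl]
    refine Finset.dvd_sum fun β hβ => ?_
    by_cases h : α ≤ β
    · rw [cf_mul _ _ _ _ h]
      refine Dvd.dvd.mul_left (Dvd.dvd.mul_right (pow_dvd_pow _ ?_) _) _
      have h2 : g (b + t • v) ≤ β.degree := by
        by_contra hcon
        push Not at hcon
        exact (mem_support_iff.1 hβ) (hg t β hcon)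
      omega
    · rw [cf_zero _ _ _ h, mul_zero]
      exact dvd_zero _
  have hprod : (∏ t : F, (Polynomial.X - Polynomial.C t) ^ (g (b + t • v) - α.degree)) ∣ R := by
    refine Finset.prod_dvd_of_coprime ?_ fun t _ => hdvd t
    intro t _ t' _ htt
    exact (Polynomial.pairwise_coprime_X_sub_C (s := (id : F → F)) Function.injective_id htt).pow
  have hR0 : R = 0 := by
    refine Polynomial.eq_zero_of_dvd_of_natDegree_lt hprod ?_
    refine lt_of_le_of_lt hdeg ?_
    rw [Polynomial.natDegree_prod_of_monic _ _ fun t _ => (Polynomial.monic_X_sub_C t).pow _]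
    have h1 : ∀ t : F, ((Polynomial.X - Polynomial.C t) ^ (g (b + t • v) - α.degree)).natDegree =
        g (b + t • v) - α.degree := fun t => by
      rw [Polynomial.natDegree_pow, Polynomial.natDegree_X_sub_C, mul_one]
    rw [Finset.sum_congr rfl fun t _ => h1 t]
    have h2 : ∑ t : F, g (b + t • v) ≤ ∑ t : F, (g (b + t • v) - α.degree) +
        Fintype.card F * α.degree := by
      have h3 : Fintype.card F * α.degree = ∑ _t : F, α.degree := by
        rw [Finset.sum_const, Finset.card_univ, smul_eq_mul]
      rw [h3, ← Finset.sum_add_distrib]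
      exact Finset.sum_le_sum fun t _ => by omega
    have h4 : Fintype.card F * α.degree ≤ e := by rw [mul_comm]; exact hα
    omega
  have hcoef : R.coeff (e - α.degree) = (shift v (homogeneousComponent e P)).coeff α := by
    rw [hR1, Polynomial.finsetSum_coeff, shift_eq,
      coeff_T v (homogeneousComponent e P) α P.support]
    · refine Finset.sum_congr rfl fun β hβ => ?_
      rw [Polynomial.coeff_C_mul, coeff_homogeneousComponent]
      by_cases h : α ≤ β
      · have h1 := cf_top b v α β h
        have h2 := hβe β hβ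
        have h3 := deg_mono α β h
        by_cases he : β.degree = e
        · rw [if_pos he, ← he, h1.2]
          rfl
        · rw [if_neg he, Polynomial.coeff_eq_zero_of_natDegree_lt, mul_zero, map_zero, zero_mul]
          refine lt_of_le_of_lt h1.1 ?_
          omega
      · rw [cf_zero _ _ _ h, cf_zero _ _ _ h]
        simp
    · intro β hβ
      rw [mem_support_iff, coeff_homogeneousComponent] at hβ
      rw [mem_support_iff]
      intro h
      rw [h] at hβ
      simp at hβ
  rw [← hcoef, hR0, Polynomial.coeff_zero]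

end Pool.Agent.W143.KP
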